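import Pool.Agent.Lib.MP_69e010_mp.AtomBridge

/-!
# The ionization conjecture: the maximal negative ionization of an atom is bounded

`H_N = ∑_j (-Δ_j - z/|x_j|) + ∑_{i<j} 1/|x_i - x_j|` on the antisymmetric functions in `L²((ℝ³ × {1,2})^N)`.
There is a constant `C`, independent of `z`, such that `N_c(z) ≤ z + C` for every `z > 0`.

For every `z > 0` the statement says:
* for every `N` there is exactly one self-adjoint operator in the fermionic space which is given on the antisymmetric functions in
  `C_c^∞` by the differential expression (this is the Hamiltonian `H_N`);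
* its spectrum is bounded below and has a smallest element (the ground state energy `E_N`);
* if `E_N` is an eigenvalue of `H_N` (`Bound z N`) then `N ≤ z + C`;
* the set of the bound `N` is not empty and bounded above, and its maximum `N_c(z)` (`Nc z`) satisfies `N_c(z) ≤ z + C`.
-/

open Ion.Atom

namespace Pool.Agent.Results.MP_69e010_mp.IonizationConjecture

/-- the ionization conjecture -/
theorem result :
    ∃ C : ℝ, ∀ z : ℝ, 0 < z →
      (∀ N : ℕ, ∃! A : Op (FS N), IsHam z N A) ∧
      (∀ (N : ℕ) (A : Op (FS N)), IsHam z N A → BddBelow (spec A) ∧ sInf (spec A) ∈ spec A) ∧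
      (∀ N : ℕ, Bound z N → (N : ℝ) ≤ z + C) ∧
      {N : ℕ | Bound z N}.Nonempty ∧ BddAbove {N : ℕ | Bound z N} ∧ (Nc z : ℝ) ≤ z + C :=
  final

end Pool.Agent.Results.MP_69e010_mp.IonizationConjecture
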